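import Pool.Agent.W313.BMX.Stm
import Pool.Agent.W975.TW.Loc3

/-!
# The value has even valuation at almost all primes (BX-FIN)
-/

set_option autoImplicit false
set_option linter.all false

namespace Pool.Agent.W928.BMX

open Finset Polynomial Pool.Agent.W313.BMX

lemma homog_eq (f : ℤ[X]) {R : Type} [CommRing R] (x w : R) :
    homog f x w = Pool.Agent.W262.TW.hom f x w := rfl

/-- squarefree part of an integer prime to `p` -/
lemma exists_sf (p : ℕ) (hp : p.Prime) (m : ℤ) (hm : ¬ (p : ℤ) ∣ m) :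
    ∃ m₀ s : ℤ, Squarefree m₀ ∧ s ≠ 0 ∧ m = m₀ * s ^ 2 ∧ ¬ (p : ℤ) ∣ m₀ := by
  have hm0 : m ≠ 0 := by
    rintro rfl
    exact hm (dvd_zero _)
  obtain ⟨a, b, ha, hb, hab, hsq⟩ := Nat.sq_mul_squarefree_of_pos (Int.natAbs_pos.2 hm0)
  have hsq' : Squarefree (a : ℤ) := Int.squarefree_natCast.2 hsq
  have habZ : (m.natAbs : ℤ) = (b : ℤ) ^ 2 * a := by
    rw [← hab]
    push_cast
    ring
  rcases Int.natAbs_eq m with h | h
  · refine ⟨a, b, hsq', by exact_mod_cast hb.ne', by rw [h, habZ]; ring, ?_⟩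
    intro hd
    apply hm
    rw [h, habZ]
    exact hd.mul_left _
  · refine ⟨-a, b, ?_, by exact_mod_cast hb.ne', by rw [h, habZ]; ring, ?_⟩
    · intro x hx
      exact hsq' x ((dvd_neg).1 hx)
    · intro hd
      apply hm
      rw [h, habZ, dvd_neg]
      exact ((dvd_neg).1 hd).mul_left _

/-- `p N` is not a square -/
lemma not_sq (p : ℕ) [Fact p.Prime] (N : ℤ) (hN : ¬ (p : ℤ) ∣ N) :
    ¬ IsSquare ((p * N : ℤ) : ℚ_[p]) := by
  rintro ⟨y, hy⟩
  have hN0 : (N : ℚ_[p]) ≠ 0 := by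
    have : N ≠ 0 := by
      rintro rfl
      exact hN (dvd_zero _)
    exact_mod_cast this
  have hp0 : (p : ℚ_[p]) ≠ 0 := by
    have := (Fact.out : p.Prime).ne_zero
    exact_mod_cast this
  have hy0 : y ≠ 0 := by
    rintro rfl
    rw [mul_zero] at hy
    push_cast at hy
    exact (mul_ne_zero hp0 hN0) hy
  have h1 := congrArg Padic.valuation hy
  rw [Padic.valuation_mul hy0 hy0] at h1
  push_cast at h1
  rw [Padic.valuation_mul hp0 hN0, Padic.valuation_p, Padic.valuation_intCast] at h1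
  have h2 : padicValInt p N = 0 := by
    rw [padicValInt.eq_zero_iff]
    exact Or.inr (Or.inr hN)
  rw [h2] at h1
  push_cast at h1
  omega

theorem fin_' (h4 : S_ODD4) (hv : S_VAL) : S_FIN := by
  classical
  intro K _ _ f hf d hd
  obtain ⟨z0, hz0⟩ := Pool.Agent.W975.TW.loc3 K f hf.1 hf.2.1 hf.2.2
  refine ⟨max z0 d.natAbs, ?_⟩
  intro p hp hz P
  have hz1 : z0 < p := lt_of_le_of_lt (le_max_left _ _) hz
  have hz2 : d.natAbs < p := lt_of_le_of_lt (le_max_right _ _) hz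
  have hpd : ¬ (p : ℤ) ∣ d := by
    intro h
    have h5 := Nat.le_of_dvd (Int.natAbs_pos.2 hd) (Int.natCast_dvd.1 h)
    omega
  have hpZ : Prime (p : ℤ) := Nat.prime_iff_prime_int.1 hp.out
  obtain ⟨v1, v2, v3⟩ := hv K f hf d hd ℚ_[p] P
  have hrep : ∀ k, ∃ (t : ℕ) (m : ℤ) (c : ℚ_[p]), t ≤ 1 ∧ Squarefree m ∧ ¬ (p : ℤ) ∣ m ∧ c ≠ 0 ∧
      value P k = ((p ^ t * m : ℤ) : ℚ_[p]) * c ^ 2 := by
    intro k
    obtain ⟨t, m, c, ht, hm, hc, e⟩ := h4 p (value P k) (v1 k)
    obtain ⟨m₀, s, h5, h6, h7, h8⟩ := exists_sf p hp.out m hm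
    have hs : (s : ℚ_[p]) ≠ 0 := by exact_mod_cast h6
    refine ⟨t, m₀, s * c, ht, h5, h8, mul_ne_zero hs hc, ?_⟩
    rw [e, h7]
    push_cast
    ring
  choose t m c ht hmsq hm hc hval using hrep
  set δ : K → ℤ := fun k => p ^ (t k) * m k with hδ
  have hδ0 : ∀ k, δ k ≠ 0 := by
    intro k
    exact mul_ne_zero (pow_ne_zero _ hpZ.ne_zero) (hmsq k).ne_zero
  have hδsq : ∀ k, Squarefree (δ k) := by
    intro k
    have hcop : IsRelPrime ((p : ℤ) ^ (t k)) (m k) := by
      have h5 : IsCoprime (p : ℤ) (m k) := (hpZ.coprime_iff_not_dvd).2 (hm k)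
      exact (h5.pow_left).isRelPrime
    have h6 : Squarefree ((p : ℤ) ^ (t k)) := by
      have h7 : t k = 0 ∨ t k = 1 := by
        have := ht k
        omega
      rcases h7 with h7 | h7
      · rw [h7, pow_zero]
        exact squarefree_one
      · rw [h7, pow_one]
        exact hpZ.squarefree
    exact squarefree_mul_iff.2 ⟨hcop, h6, hmsq k⟩
  have hval' : ∀ k, value P k = ((δ k : ℤ) : ℚ_[p]) * c k ^ 2 := hval
  have hpt : Pool.Agent.W262.TW.HasPt f δ ℚ_[p] := by
    refine ⟨P.x, P.w, P.ne, ?_⟩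
    exact v3 δ hδ0 fun k => ⟨(δ k : ℚ_[p]) * c k, by rw [hval' k]; ring⟩
  have hno : ∀ i, ¬ (p : ℤ) ∣ δ i := by
    intro i hi
    have hothers := (hz0 p hz1 δ hδsq hpt i hi).1
    -- the product
    have hti : t i = 1 := by
      by_contra h5
      have h6 : t i = 0 := by
        have := ht i
        omega
      apply hm i
      have h7 : δ i = m i := by
        rw [hδ]
        simp only [h6, pow_zero, one_mul]
      rwa [h7] at hi
    have hδi : δ i = p * m i := by
      rw [hδ]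
      simp only [hti, pow_one]
    set N : ℤ := m i * (d * ∏ k ∈ univ.erase i, δ k) with hN
    have hNp : ¬ (p : ℤ) ∣ N := by
      intro h5
      rcases hpZ.dvd_or_dvd h5 with h6 | h6
      · exact hm i h6
      · rcases hpZ.dvd_or_dvd h6 with h7 | h7
        · exact hpd h7
        · obtain ⟨k, hk, h8⟩ := (hpZ.dvd_finset_prod_iff _).1 h7
          exact hothers k (Finset.ne_of_mem_erase hk) h8
    have hprod : d * ∏ k, δ k = p * N := by
      rw [← Finset.mul_prod_erase univ δ (mem_univ i), hδi, hN]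
      ring
    apply not_sq p N hNp
    rw [← hprod]
    obtain ⟨y, hy⟩ := v2
    have hC0 : (∏ k, c k) ≠ 0 := Finset.prod_ne_zero_iff.2 fun k _ => hc k
    refine ⟨y / ∏ k, c k, ?_⟩
    rw [div_mul_div_comm, eq_div_iff (mul_ne_zero hC0 hC0), ← hy]
    have e1 : ∏ k, value P k = (∏ k, ((δ k : ℤ) : ℚ_[p])) * (∏ k, c k) ^ 2 := by
      rw [← Finset.prod_pow, ← Finset.prod_mul_distrib]
      exact Finset.prod_congr rfl fun k _ => hval' k
    rw [e1, Int.cast_mul, Int.cast_prod]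
    ring
  intro k
  refine ⟨m k, c k, hm k, hc k, ?_⟩
  have h5 : t k = 0 := by
    by_contra h6
    apply hno k
    rw [hδ]
    exact (dvd_pow_self _ h6).mul_right _
  have h6 := hval k
  rw [h5, pow_zero, one_mul] at h6
  exact h6

theorem fin_ (h4 : S_ODD4) (h1 : S_ODD1) (hv : S_VAL) : S_FIN := fin_' h4 hv

end Pool.Agent.W928.BMX
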