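import Pool.Agent.W313.BMX.Stm

/-!
# The product formula (BX-REC)
-/

set_option autoImplicit false
set_option linter.all false

namespace Pool.Agent.W928.BMX

open Finset Pool.Agent.W313.BMX

lemma splits_comm' {F : Type} [Field F] {a b : F} (h : Splits a b) : Splits b a := by
  obtain ⟨x, y, z, h, e⟩ := h
  exact ⟨y, x, z, by tauto, by rw [e]; ring⟩

lemma splits_comm {F : Type} [Field F] {a b : F} : Splits a b ↔ Splits b a :=
  ⟨splits_comm', splits_comm'⟩

lemma splits_nm {F : Type} [Field F] {a b : F} (hb : b ≠ 0) (h : Splits a b) :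
    Splits (-a * b) b := by
  obtain ⟨x, y, z, h, e⟩ := h
  refine ⟨x, z, b * y, ?_, by linear_combination (-b) * e⟩
  by_contra hc
  push Not at hc
  obtain ⟨hx, hz, hy⟩ := hc
  rcases h with h | h | h
  · exact h hx
  · exact (mul_ne_zero hb h) hy
  · exact h hz

lemma splits_sq {F : Type} [Field F] {a b c : F} (hc : c ≠ 0) :
    Splits (a * c ^ 2) b ↔ Splits a b := by
  constructor
  · rintro ⟨x, y, z, h, e⟩
    refine ⟨c * x, y, z, ?_, by rw [e]; ring⟩
    rcases h with h | h | h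
    · exact Or.inl (mul_ne_zero hc h)
    · exact Or.inr (Or.inl h)
    · exact Or.inr (Or.inr h)
  · rintro ⟨x, y, z, h, e⟩
    refine ⟨x / c, y, z, ?_, by rw [e]; field_simp⟩
    rcases h with h | h | h
    · exact Or.inl (div_ne_zero h hc)
    · exact Or.inr (Or.inl h)
    · exact Or.inr (Or.inr h)

lemma splits_nm_iff {F : Type} [Field F] {a b : F} (hb : b ≠ 0) :
    Splits a b ↔ Splits (-a * b) b := by
  refine ⟨splits_nm hb, fun h => ?_⟩
  have h1 := splits_nm hb h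
  have h2 : -(-a * b) * b = a * b ^ 2 := by ring
  rw [h2, splits_sq hb] at h1
  exact h1

/-- the real place -/
lemma splits_real (a b : ℤ) (ha : a ≠ 0) (hb : b ≠ 0) :
    ¬ Splits (a : ℝ) (b : ℝ) ↔ (a < 0 ∧ b < 0) := by
  have ha' : (a : ℝ) ≠ 0 := by exact_mod_cast ha
  have hb' : (b : ℝ) ≠ 0 := by exact_mod_cast hb
  constructor
  · intro h
    by_contra hc
    apply h
    by_cases h1 : a < 0
    · have h2 : 0 ≤ b := by
        by_contra h2
        exact hc ⟨h1, not_le.1 h2⟩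
      have h3 : (0 : ℝ) ≤ b := by exact_mod_cast h2
      exact ⟨0, 1, Real.sqrt b, Or.inr (Or.inl one_ne_zero), by rw [Real.sq_sqrt h3]; ring⟩
    · have h3 : (0 : ℝ) ≤ a := by exact_mod_cast not_lt.1 h1
      exact ⟨1, 0, Real.sqrt a, Or.inl one_ne_zero, by rw [Real.sq_sqrt h3]; ring⟩
  · rintro ⟨h1, h2⟩ ⟨x, y, z, h, e⟩
    have h1' : (a : ℝ) < 0 := by exact_mod_cast h1
    have h2' : (b : ℝ) < 0 := by exact_mod_cast h2
    have hx : 0 ≤ -(a : ℝ) * x ^ 2 := by nlinarith [sq_nonneg x]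
    have hy : 0 ≤ -(b : ℝ) * y ^ 2 := by nlinarith [sq_nonneg y]
    have hz := sq_nonneg z
    have ex : -(a : ℝ) * x ^ 2 = 0 := by linarith
    have ey : -(b : ℝ) * y ^ 2 = 0 := by linarith
    have ez : z ^ 2 = 0 := by linarith
    have x0 : x = 0 := by
      rcases mul_eq_zero.1 ex with h3 | h3
      · exact absurd (neg_eq_zero.1 h3) ha'
      · exact pow_eq_zero_iff (two_ne_zero) |>.1 h3
    have y0 : y = 0 := by
      rcases mul_eq_zero.1 ey with h3 | h3
      · exact absurd (neg_eq_zero.1 h3) hb'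
      · exact pow_eq_zero_iff (two_ne_zero) |>.1 h3
    have z0 : z = 0 := pow_eq_zero_iff (two_ne_zero) |>.1 ez
    rcases h with h | h | h
    · exact h x0
    · exact h y0
    · exact h z0

/-- the prime-to-`q` part -/
lemma exists_part (n : ℤ) (hn : Squarefree n) (q : ℕ) (hq : q.Prime) :
    ∃ n' : ℤ, (n = n' ∨ n = q * n') ∧ ¬ (q : ℤ) ∣ n' := by
  by_cases h : (q : ℤ) ∣ n
  · obtain ⟨m, hm⟩ := h
    refine ⟨m, Or.inr hm, ?_⟩
    rintro ⟨k, hk⟩
    have h1 : (q : ℤ) * (q : ℤ) ∣ n := ⟨k, by rw [hm, hk]; ring⟩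
    have h2 := hn _ h1
    rw [Int.ofNat_isUnit, Nat.isUnit_iff] at h2
    exact hq.one_lt.ne' h2
  · exact ⟨n, Or.inl rfl, h⟩

lemma exists_S0' (N : ℕ) (hN : Squarefree N) : ∃ S0 : Finset {p : ℕ // p.Prime},
    (∀ p : {p : ℕ // p.Prime}, p ∈ S0 ↔ (p : ℕ) ∣ N) ∧ (N : ℤ) = ∏ p ∈ S0, ((p : ℕ) : ℤ) := by
  refine ⟨N.primeFactors.subtype Nat.Prime, ?_, ?_⟩
  · intro p
    rw [Finset.mem_subtype, Nat.mem_primeFactors]
    exact ⟨fun h => h.2.1, fun h => ⟨p.2, h, hN.ne_zero⟩⟩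
  · have e2 := Nat.prod_primeFactors_of_squarefree hN
    rw [Finset.prod_subtype_eq_prod_filter (fun p : ℕ => (p : ℤ)), Finset.filter_true_of_mem
        (fun p hp => Nat.prime_of_mem_primeFactors hp), ← Nat.cast_prod, e2]

lemma exists_S0 (N : ℕ) (hN : Squarefree N) : ∃ S0 : Finset Nat.Primes,
    (∀ p : Nat.Primes, p ∈ S0 ↔ (p : ℕ) ∣ N) ∧ (N : ℤ) = ∏ p ∈ S0, ((p : ℕ) : ℤ) :=
  exists_S0' N hN

open Classical in
/-- the parity of the number of the ramified places -/
lemma parity (ψ : ℤ →* ℤ) (q : Nat.Primes)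
    (hψ : ∀ x : ℤ, ¬ ((q : ℕ) : ℤ) ∣ x → ψ x = 1 ∨ ψ x = -1)
    (n n' : ℤ) (hn : Squarefree n) (hn' : n = n' ∨ n = (q : ℕ) * n') (hq' : ¬ ((q : ℕ) : ℤ) ∣ n')
    (R : Set (Option Nat.Primes)) (h0 : none ∈ R ↔ ψ n.sign = -1)
    (h1 : ∀ p : Nat.Primes, p ≠ q →
      (some p ∈ R ↔ (((p : ℕ) : ℤ) ∣ n ∧ ψ ((p : ℕ) : ℤ) = -1)))
    (h2 : some q ∈ R ↔ ψ n' = -1) : R.Finite ∧ Even R.ncard := by
  have hqZ : Prime ((q : ℕ) : ℤ) := Nat.prime_iff_prime_int.1 q.2
  have hn0 : n ≠ 0 := hn.ne_zero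
  have hn'0 : n' ≠ 0 := by
    rintro rfl
    exact hq' (dvd_zero _)
  have hdvd : n' ∣ n := by
    rcases hn' with e | e
    · rw [e]
    · exact ⟨(q : ℕ), by rw [e]; ring⟩
  have hsq' : Squarefree n' := hn.squarefree_of_dvd hdvd
  have hsign : n.sign = n'.sign := by
    rcases hn' with e | e
    · rw [e]
    · rw [e, Int.sign_mul, Int.sign_eq_one_of_pos (by exact_mod_cast q.2.pos), one_mul]
  have hsu : n.sign = 1 ∨ n.sign = -1 := by
    rcases lt_or_gt_of_ne hn0 with h | h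
    · exact Or.inr (Int.sign_eq_neg_one_of_neg h)
    · exact Or.inl (Int.sign_eq_one_of_pos h)
  obtain ⟨S0, hS0, hprodS0⟩ := exists_S0 n'.natAbs (Int.squarefree_natAbs.2 hsq')
  have hmem : ∀ p : Nat.Primes, p ∈ S0 ↔ ((p : ℕ) : ℤ) ∣ n' := by
    intro p
    rw [hS0, Int.natCast_dvd]
  have hqS : q ∉ S0 := by
    rw [hmem]
    exact hq'
  have hpdvd : ∀ p : Nat.Primes, p ≠ q → (((p : ℕ) : ℤ) ∣ n ↔ ((p : ℕ) : ℤ) ∣ n') := by
    intro p hp
    refine ⟨fun h => ?_, fun h => h.trans hdvd⟩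
    rcases hn' with e | e
    · rwa [e] at h
    · rw [e] at h
      rcases (Nat.prime_iff_prime_int.1 p.2).dvd_or_dvd h with h3 | h3
      · exfalso
        apply hp
        apply Subtype.ext
        exact (Nat.prime_dvd_prime_iff_eq p.2 q.2).1 (Int.natCast_dvd_natCast.1 h3)
      · exact h3
  have hnotq : ∀ p ∈ S0, ¬ ((q : ℕ) : ℤ) ∣ ((p : ℕ) : ℤ) := by
    intro p hp h
    have h3 := (Nat.prime_dvd_prime_iff_eq q.2 p.2).1 (Int.natCast_dvd_natCast.1 h)
    have h4 : q = p := Subtype.ext h3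
    exact hqS (h4 ▸ hp)
  have hone : ¬ ((q : ℕ) : ℤ) ∣ 1 := fun h => hqZ.not_unit (isUnit_of_dvd_one h)
  have hψs : ψ n.sign = 1 ∨ ψ n.sign = -1 := by
    apply hψ
    rcases hsu with e | e
    · rw [e]
      exact hone
    · rw [e]
      intro h
      exact hone ((dvd_neg).1 h)
  -- the value at `n'`
  have hprod : ψ n' = ψ n.sign * ∏ p ∈ S0, ψ ((p : ℕ) : ℤ) := by
    have e3 : n' = n.sign * ∏ p ∈ S0, ((p : ℕ) : ℤ) := by
      rw [hsign, ← hprodS0, Int.sign_mul_natAbs]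
    conv_lhs => rw [e3]
    rw [map_mul, map_prod]
  set S : Finset (Option Nat.Primes) := insert none (insert (some q) (S0.map Function.Embedding.some))
    with hS
  have hRS : R ⊆ (S : Set (Option Nat.Primes)) := by
    intro v hv
    rw [Finset.mem_coe, hS, Finset.mem_insert, Finset.mem_insert]
    rcases v with _ | p
    · left
      rfl
    · right
      by_cases hp : p = q
      · left
        rw [hp]
      · right
        have h3 := ((h1 p hp).1 hv).1
        rw [Finset.mem_map]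
        exact ⟨p, (hmem p).2 ((hpdvd p hp).1 h3), rfl⟩
  refine ⟨S.finite_toSet.subset hRS, ?_⟩
  have hcard : R.ncard = (S.filter (· ∈ R)).card := by
    rw [← Set.ncard_coe_finset]
    congr 1
    ext v
    rw [Finset.mem_coe, Finset.mem_filter]
    exact ⟨fun h => ⟨hRS h, h⟩, fun h => h.2⟩
  have hpow : (-1 : ℤ) ^ R.ncard = ∏ v ∈ S, (if v ∈ R then (-1 : ℤ) else 1) := by
    rw [Finset.prod_ite, Finset.prod_const_one, mul_one, Finset.prod_const, hcard]
  have hval : ∏ v ∈ S, (if v ∈ R then (-1 : ℤ) else 1) = ψ n' * ψ n' := by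
    rw [hS, Finset.prod_insert, Finset.prod_insert, Finset.prod_map]
    · have e0 : (if none ∈ R then (-1 : ℤ) else 1) = ψ n.sign := by
        by_cases h : none ∈ R
        · rw [if_pos h, (h0.1 h)]
        · rw [if_neg h]
          rcases hψs with e | e
          · exact e.symm
          · exact absurd (h0.2 e) h
      have e1 : (if some q ∈ R then (-1 : ℤ) else 1) = ψ n' := by
        by_cases h : some q ∈ R
        · rw [if_pos h, (h2.1 h)]
        · rw [if_neg h]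
          rcases hψ n' hq' with e | e
          · exact e.symm
          · exact absurd (h2.2 e) h
      have e2 : ∏ p ∈ S0, (if Function.Embedding.some p ∈ R then (-1 : ℤ) else 1) =
          ∏ p ∈ S0, ψ ((p : ℕ) : ℤ) := by
        refine Finset.prod_congr rfl fun p hp => ?_
        have hpq : p ≠ q := fun e => hqS (e ▸ hp)
        have hpn := (hpdvd p hpq).2 ((hmem p).1 hp)
        by_cases h : Function.Embedding.some p ∈ R
        · rw [if_pos h]
          exact (((h1 p hpq).1 h).2).symm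
        · rw [if_neg h]
          rcases hψ _ (hnotq p hp) with e | e
          · exact e.symm
          · exact absurd ((h1 p hpq).2 ⟨hpn, e⟩) h
      rw [e0, e1, e2]
      conv_rhs => rw [hprod]
      rw [hprod]
      ring
    · rw [Finset.mem_map]
      rintro ⟨p, hp, e⟩
      have e' : p = q := Option.some_injective _ e
      exact hqS (e' ▸ hp)
    · rw [Finset.mem_insert, Finset.mem_map]
      rintro (e | ⟨p, hp, e⟩)
      · cases e
      · cases e
  have hone' : ψ n' * ψ n' = 1 := by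
    rcases hψ n' hq' with e | e <;> rw [e] <;> norm_num
  rw [hval, hone'] at hpow
  rcases Nat.even_or_odd R.ncard with h | h
  · exact h
  · rw [h.neg_one_pow] at hpow
    norm_num at hpow

/-- the symbol at an odd place -/
lemma odd_place (h2 : S_ODD2) (h3 : S_ODD3) (p : Nat.Primes) (hp : (p : ℕ) ≠ 2) (n e : ℤ)
    (hn : Squarefree n) (he : ¬ ((p : ℕ) : ℤ) ∣ e) :
    (some p ∈ ram (diag n) e ↔ (((p : ℕ) : ℤ) ∣ n ∧ legendreSym p e = -1)) := by
  have hiff : some p ∈ ram (diag n) e ↔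
      ¬ Splits ((n : ℤ) : ℚ_[(p : ℕ)]) ((e : ℤ) : ℚ_[(p : ℕ)]) := Iff.rfl
  have he' : ((e : ℤ) : ZMod p) ≠ 0 := by
    rwa [Ne, ZMod.intCast_zmod_eq_zero_iff_dvd]
  rw [hiff]
  obtain ⟨m, hm, hpm⟩ := exists_part n hn p p.2
  rcases hm with e1 | e1
  · subst e1
    constructor
    · intro h
      exact absurd (h2 p hp n e hpm he) h
    · rintro ⟨h, -⟩
      exact absurd h hpm
  · have h4 := h3 p hp m e hpm he
    rw [e1, h4, legendreSym.eq_neg_one_iff_not_one p he']
    constructor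
    · intro h
      exact ⟨⟨m, rfl⟩, h⟩
    · exact fun h => h.2

lemma real_place (n e : ℤ) (hn : n ≠ 0) (he : e ≠ 0) (ψ : ℤ →* ℤ)
    (h : e < 0 ↔ ψ (-1) = -1) : (none ∈ ram (diag n) e ↔ ψ n.sign = -1) := by
  have hiff : none ∈ ram (diag n) e ↔ ¬ Splits ((n : ℤ) : ℝ) ((e : ℤ) : ℝ) := Iff.rfl
  rw [hiff, splits_real n e hn he]
  rcases lt_or_gt_of_ne hn with h1 | h1
  · rw [Int.sign_eq_neg_one_of_neg h1, ← h]
    exact ⟨fun h => h.2, fun h => ⟨h1, h⟩⟩
  · rw [Int.sign_eq_one_of_pos h1, map_one]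
    constructor
    · rintro ⟨h2, -⟩
      omega
    · intro h2
      norm_num at h2

/-- the character modulo 4 -/
noncomputable def psi4 : ℤ →* ℤ :=
  (ZMod.χ₄.toMonoidHom).comp (Int.castRingHom (ZMod 4)).toMonoidHom

/-- the character modulo 8 -/
noncomputable def psi8 : ℤ →* ℤ :=
  (ZMod.χ₈.toMonoidHom).comp (Int.castRingHom (ZMod 8)).toMonoidHom

lemma psi4_apply (x : ℤ) : psi4 x = if x % 2 = 0 then 0 else if x % 4 = 1 then 1 else -1 :=
  ZMod.χ₄_int_eq_if_mod_four x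

lemma psi8_apply (x : ℤ) :
    psi8 x = if x % 2 = 0 then 0 else if x % 8 = 1 ∨ x % 8 = 7 then 1 else -1 :=
  ZMod.χ₈_int_eq_if_mod_eight x

/-- the character modulo `l` -/
def psil (l : ℕ) [Fact l.Prime] : ℤ →* ℤ := (legendreSym.hom l).toMonoidHom

lemma psil_apply (l : ℕ) [Fact l.Prime] (x : ℤ) : psil l x = legendreSym l x := rfl

theorem rec_neg (h2 : S_ODD2) (h3 : S_ODD3) (t4 : S_TWO4) (n : ℤ) (hn : Squarefree n) :
    (ram (diag n) (-1)).Finite ∧ Even (ram (diag n) (-1)).ncard := by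
  obtain ⟨n', hn', hq⟩ := exists_part n hn 2 Nat.prime_two
  refine parity psi4 ⟨2, Nat.prime_two⟩ ?_ n n' hn hn' hq _ ?_ ?_ ?_
  · intro x hx
    have hx' : ¬ x % 2 = 0 := by
      change ¬ ((2 : ℕ) : ℤ) ∣ x at hx
      omega
    rw [psi4_apply, if_neg hx']
    by_cases h : x % 4 = 1
    · rw [if_pos h]
      left
      rfl
    · rw [if_neg h]
      right
      rfl
  · refine real_place n (-1) hn.ne_zero (by norm_num) psi4 ?_
    rw [psi4_apply]
    norm_num
  · intro p hp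
    have hp2 : (p : ℕ) ≠ 2 := fun e => hp (Subtype.ext e)
    have hunit : ¬ ((p : ℕ) : ℤ) ∣ -1 := by
      intro h
      have h4 := Int.natCast_dvd.1 h
      rw [Int.natAbs_neg, Int.natAbs_one] at h4
      exact p.2.one_lt.ne' (Nat.dvd_one.1 h4)
    rw [odd_place h2 h3 p hp2 n (-1) hn hunit, legendreSym.at_neg_one hp2]
    have h5 : psi4 ((p : ℕ) : ℤ) = ZMod.χ₄ ((p : ℕ) : ZMod 4) := by
      change ZMod.χ₄ (((p : ℕ) : ℤ) : ZMod 4) = _
      rw [Int.cast_natCast]
    rw [h5]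
  · have hiff : some (⟨2, Nat.prime_two⟩ : Nat.Primes) ∈ ram (diag n) (-1) ↔
      ¬ Splits ((n : ℤ) : ℚ_[2]) (((-1 : ℤ)) : ℚ_[2]) := Iff.rfl
    have hodd : n' % 2 = 1 := by omega
    have h6 : (psi4 n' = -1 ↔ ¬ n' % 4 = 1) := by
      rw [psi4_apply, if_neg (by omega)]
      by_cases h : n' % 4 = 1
      · rw [if_pos h]
        constructor
        · intro h7
          norm_num at h7
        · intro h7
          exact absurd h h7
      · rw [if_neg h]
        exact ⟨fun _ => h, fun _ => rfl⟩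
    refine hiff.trans ?_
    rw [h6, Int.cast_neg, Int.cast_one]
    obtain ⟨h7, h8⟩ := t4 n' hodd
    rcases hn' with e | e
    · rw [e, h7]
    · rw [e]
      have h9 : (((2 : ℕ) : ℤ) * n') = 2 * n' := rfl
      rw [h9, h8]

theorem rec_two (h2 : S_ODD2) (h3 : S_ODD3) (t5 : S_TWO5) (n : ℤ) (hn : Squarefree n) :
    (ram (diag n) 2).Finite ∧ Even (ram (diag n) 2).ncard := by
  obtain ⟨n', hn', hq⟩ := exists_part n hn 2 Nat.prime_two
  refine parity psi8 ⟨2, Nat.prime_two⟩ ?_ n n' hn hn' hq _ ?_ ?_ ?_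
  · intro x hx
    have hx' : ¬ x % 2 = 0 := by
      change ¬ ((2 : ℕ) : ℤ) ∣ x at hx
      omega
    rw [psi8_apply, if_neg hx']
    by_cases h : x % 8 = 1 ∨ x % 8 = 7
    · rw [if_pos h]
      left
      rfl
    · rw [if_neg h]
      right
      rfl
  · refine real_place n 2 hn.ne_zero (by norm_num) psi8 ?_
    rw [psi8_apply]
    norm_num
  · intro p hp
    have hp2 : (p : ℕ) ≠ 2 := fun e => hp (Subtype.ext e)
    have hunit : ¬ ((p : ℕ) : ℤ) ∣ 2 := by
      intro h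
      have h4 := Int.natCast_dvd.1 h
      have h5 : (p : ℕ) ∣ 2 := h4
      exact hp2 ((Nat.prime_dvd_prime_iff_eq p.2 Nat.prime_two).1 h5)
    rw [odd_place h2 h3 p hp2 n 2 hn hunit, legendreSym.at_two hp2]
    have h5 : psi8 ((p : ℕ) : ℤ) = ZMod.χ₈ ((p : ℕ) : ZMod 8) := by
      change ZMod.χ₈ (((p : ℕ) : ℤ) : ZMod 8) = _
      rw [Int.cast_natCast]
    rw [h5]
  · have hiff : some (⟨2, Nat.prime_two⟩ : Nat.Primes) ∈ ram (diag n) 2 ↔
      ¬ Splits ((n : ℤ) : ℚ_[2]) (((2 : ℤ)) : ℚ_[2]) := Iff.rfl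
    have hodd : n' % 2 = 1 := by omega
    have h6 : (psi8 n' = -1 ↔ ¬ (n' % 8 = 1 ∨ n' % 8 = 7)) := by
      rw [psi8_apply, if_neg (by omega)]
      by_cases h : n' % 8 = 1 ∨ n' % 8 = 7
      · rw [if_pos h]
        constructor
        · intro h7
          norm_num at h7
        · intro h7
          exact absurd h h7
      · rw [if_neg h]
        exact ⟨fun _ => h, fun _ => rfl⟩
    refine hiff.trans ?_
    rw [h6, Int.cast_ofNat]
    obtain ⟨h7, h8⟩ := t5 n' hodd
    rcases hn' with e | e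
    · rw [e, h7]
    · rw [e]
      have h9 : (((2 : ℕ) : ℤ) * n') = 2 * n' := rfl
      rw [h9, h8]

/-- quadratic reciprocity for `± l = 1` modulo `4` -/
lemma recip (l : ℕ) [Fact l.Prime] (s : ℤ) (hs : (s = 1 ∧ l % 4 = 1) ∨ (s = -1 ∧ l % 4 = 3))
    (p : ℕ) [Fact p.Prime] (hp : p ≠ 2) : legendreSym p (l * s) = legendreSym l p := by
  have hl2 : l ≠ 2 := by
    rintro rfl
    omega
  rcases hs with ⟨rfl, h⟩ | ⟨rfl, h⟩
  · rw [mul_one]
    exact legendreSym.quadratic_reciprocity_one_mod_four h hp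
  · rw [legendreSym.mul, legendreSym.at_neg_one hp]
    have hodd : p % 2 = 1 := by
      rcases (Fact.out : p.Prime).eq_two_or_odd with h1 | h1
      · exact absurd h1 hp
      · exact h1
    by_cases h4 : p % 4 = 1
    · rw [ZMod.χ₄_nat_one_mod_four h4, mul_one]
      exact (legendreSym.quadratic_reciprocity_one_mod_four h4 hl2).symm
    · have h4' : p % 4 = 3 := by omega
      rw [ZMod.χ₄_nat_three_mod_four h4', legendreSym.quadratic_reciprocity_three_mod_four h h4']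
      ring

theorem rec_l (h2 : S_ODD2) (h3 : S_ODD3) (t2 : S_TWO2) (t3 : S_TWO3) (n : ℤ)
    (hn : Squarefree n) (l : ℕ) (hl : l.Prime) (s : ℤ)
    (hs : (s = 1 ∧ l % 4 = 1) ∨ (s = -1 ∧ l % 4 = 3)) :
    (ram (diag n) (l * s)).Finite ∧ Even (ram (diag n) (l * s)).ncard := by
  have : Fact l.Prime := ⟨hl⟩
  have hl2 : l ≠ 2 := by
    rintro rfl
    omega
  have hlpos := hl.pos
  have hs1 : s * s = 1 := by
    rcases hs with ⟨rfl, -⟩ | ⟨rfl, -⟩ <;> norm_num
  have hunit : ∀ k : ℤ, ¬ (l : ℤ) ∣ k → ¬ (l : ℤ) ∣ s * k := by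
    intro k hk h
    apply hk
    have h1 : k = s * (s * k) := by rw [← mul_assoc, hs1, one_mul]
    rw [h1]
    exact h.mul_left s
  have hl1 : ¬ (l : ℤ) ∣ 1 := by
    intro h
    have h4 := Int.natCast_dvd.1 h
    rw [Int.natAbs_one] at h4
    exact hl.one_lt.ne' (Nat.dvd_one.1 h4)
  have hls : ¬ (l : ℤ) ∣ s := by
    have := hunit 1 hl1
    rwa [mul_one] at this
  have hneg1 : legendreSym l (-s) = 1 := by
    rcases hs with ⟨rfl, h⟩ | ⟨rfl, h⟩
    · rw [legendreSym.at_neg_one hl2, ZMod.χ₄_nat_one_mod_four h]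
    · rw [neg_neg, legendreSym.at_one]
  obtain ⟨n', hn', hq⟩ := exists_part n hn l hl
  refine parity (psil l) ⟨l, hl⟩ ?_ n n' hn hn' hq _ ?_ ?_ ?_
  · intro x hx
    rw [psil_apply]
    exact legendreSym.eq_one_or_neg_one l (by
      rw [Ne, ZMod.intCast_zmod_eq_zero_iff_dvd]
      exact hx)
  · refine real_place n (l * s) hn.ne_zero ?_ (psil l) ?_
    · rcases hs with ⟨rfl, -⟩ | ⟨rfl, -⟩ <;> omega
    · rw [psil_apply, legendreSym.at_neg_one hl2]
      rcases hs with ⟨rfl, h⟩ | ⟨rfl, h⟩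
      · rw [ZMod.χ₄_nat_one_mod_four h]
        constructor
        · intro h1
          omega
        · intro h1
          norm_num at h1
      · rw [ZMod.χ₄_nat_three_mod_four h]
        constructor
        · intro h1
          rfl
        · intro h1
          omega
  · intro p hp
    by_cases hp2 : (p : ℕ) = 2
    · obtain rfl : p = ⟨2, Nat.prime_two⟩ := Subtype.ext hp2
      have hiff : some (⟨2, Nat.prime_two⟩ : Nat.Primes) ∈ ram (diag n) (l * s) ↔
        ¬ Splits ((n : ℤ) : ℚ_[2]) (((l * s : ℤ)) : ℚ_[2]) := Iff.rfl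
      have he4 : (l * s : ℤ) % 4 = 1 := by
        rcases hs with ⟨rfl, h⟩ | ⟨rfl, h⟩ <;> omega
      have h8 : (psil l (((⟨2, Nat.prime_two⟩ : Nat.Primes) : ℕ) : ℤ) = -1 ↔
          ¬ (l * s : ℤ) % 8 = 1) := by
        rw [psil_apply]
        have h9 : legendreSym l (((⟨2, Nat.prime_two⟩ : Nat.Primes) : ℕ) : ℤ) =
            ZMod.χ₈ (l : ZMod 8) := legendreSym.at_two hl2
        rw [h9, ZMod.χ₈_nat_eq_if_mod_eight]
        have h10 : ¬ l % 2 = 0 := by
          rcases hs with ⟨rfl, h⟩ | ⟨rfl, h⟩ <;> omega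
        rw [if_neg h10]
        by_cases h11 : l % 8 = 1 ∨ l % 8 = 7
        · rw [if_pos h11]
          constructor
          · intro h12
            norm_num at h12
          · intro h12
            exfalso
            apply h12
            rcases hs with ⟨rfl, h⟩ | ⟨rfl, h⟩ <;> omega
        · rw [if_neg h11]
          constructor
          · intro _
            rcases hs with ⟨rfl, h⟩ | ⟨rfl, h⟩ <;> omega
          · intro _
            rfl
      refine hiff.trans (Iff.trans ?_ (and_congr Iff.rfl h8).symm)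
      obtain ⟨m, hm, hm2⟩ := exists_part n hn 2 Nat.prime_two
      have hmodd : m % 2 = 1 := by omega
      rcases hm with e | e
      · constructor
        · intro h
          exact absurd (t2 n _ (by rw [e]; exact hmodd) he4) h
        · rintro ⟨h, -⟩
          exfalso
          apply hm2
          rw [← e]
          exact h
      · have h12 : (((2 : ℕ) : ℤ) * m) = 2 * m := rfl
        rw [e, h12, t3 m _ hmodd he4]
        exact ⟨fun h => ⟨⟨m, rfl⟩, h⟩, fun h => h.2⟩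
    · have hpl : ¬ ((p : ℕ) : ℤ) ∣ (l * s : ℤ) := by
        intro h
        have h4 : ((p : ℕ) : ℤ) ∣ (l : ℤ) := by
          have h5 : (l : ℤ) = (l * s) * s := by rw [mul_assoc, hs1, mul_one]
          rw [h5]
          exact h.mul_right s
        exact hp (Subtype.ext ((Nat.prime_dvd_prime_iff_eq p.2 hl).1
          (Int.natCast_dvd_natCast.1 h4)))
      rw [odd_place h2 h3 p hp2 n _ hn hpl, recip l s hs p hp2, psil_apply]
  · have hiff : some (⟨l, hl⟩ : Nat.Primes) ∈ ram (diag n) (l * s) ↔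
      ¬ Splits ((n : ℤ) : ℚ_[l]) (((l * s : ℤ)) : ℚ_[l]) := Iff.rfl
    have hn'z : ((n' : ℤ) : ZMod l) ≠ 0 := by
      rwa [Ne, ZMod.intCast_zmod_eq_zero_iff_dvd]
    refine hiff.trans ?_
    rw [psil_apply, legendreSym.eq_neg_one_iff_not_one l hn'z, not_iff_not]
    rcases hn' with e | e
    · rw [e, splits_comm]
      exact h3 l hl2 s n' hls hq
    · have hlq : ((l * s : ℤ) : ℚ_[l]) ≠ 0 := by
        have h4 : (l * s : ℤ) ≠ 0 := by
          rcases hs with ⟨rfl, -⟩ | ⟨rfl, -⟩ <;> omega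
        exact_mod_cast h4
      have hlq' : (l : ℚ_[l]) ≠ 0 := by exact_mod_cast hl.ne_zero
      have h5 : -((n : ℤ) : ℚ_[l]) * ((l * s : ℤ) : ℚ_[l]) =
          ((-s * n' : ℤ) : ℚ_[l]) * (l : ℚ_[l]) ^ 2 := by
        rw [e]
        push_cast
        ring
      have h6 : ¬ (l : ℤ) ∣ (-s * n') := by
        rw [neg_mul]
        intro h
        exact hunit n' hq ((dvd_neg).1 h)
      rw [splits_nm_iff hlq, h5, splits_sq hlq', splits_comm, h3 l hl2 s (-s * n') hls h6,
        legendreSym.mul, hneg1, one_mul]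

theorem rec_ (h2 : S_ODD2) (h3 : S_ODD3) (t1 : S_TWO1) (t2 : S_TWO2) (t3 : S_TWO3) (t4 : S_TWO4)
    (t5 : S_TWO5) : S_REC := by
  intro n hn e he
  rcases he with rfl | rfl | ⟨hp, h4⟩
  · exact rec_neg h2 h3 t4 n hn
  · exact rec_two h2 h3 t5 n hn
  · rcases Int.natAbs_eq e with h | h
    · have h5 : e = (e.natAbs : ℤ) * 1 := by rw [mul_one]; exact h
      rw [h5]
      exact rec_l h2 h3 t2 t3 n hn e.natAbs hp 1 (Or.inl ⟨rfl, by omega⟩)
    · have h5 : e = (e.natAbs : ℤ) * (-1) := by rw [mul_neg_one]; exact h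
      rw [h5]
      exact rec_l h2 h3 t2 t3 n hn e.natAbs hp (-1) (Or.inr ⟨rfl, by omega⟩)

end Pool.Agent.W928.BMX
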